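import Pool.Agent.Helper2.EL.Defs

/-!
Block EL-7 (project EL for MP_b8862a_ag): the elements `g` with `det g = z ^ n` form a subgroup of `Γ` of
index at most `2`.
-/

open Matrix

namespace MH

variable {n : Type*} [Fintype n] [DecidableEq n]
variable {m : ℤ} {Q : Matrix n n ℚ} {S : Finset ℤ} {P R : ℤ → Matrix n n ℂ} {Γ : Subgroup (GL n ℂ)}

private lemma detQ30 (H : IsHS m Q S P) : (toC Q).det ≠ 0 := by
  obtain ⟨B, Bi, Qi, _, _, h3, _, _⟩ := H.exists_basis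
  intro h0
  have := congrArg Matrix.det h3
  rw [Matrix.det_mul, h0, zero_mul, Matrix.det_one] at this
  exact zero_ne_one this

private lemma detg30 (g : GL n ℂ) : (g : Matrix n n ℂ).det ≠ 0 := by
  have h1 : (g : Matrix n n ℂ) * ((g⁻¹ : GL n ℂ) : Matrix n n ℂ) = 1 := by
    rw [← Units.val_mul, mul_inv_cancel, Units.val_one]
  intro h0
  have := congrArg Matrix.det h1
  rw [Matrix.det_mul, h0, zero_mul, Matrix.det_one] at this
  exact zero_ne_one this

private def Good30 (m : ℤ) (Q : Matrix n n ℚ) (e : ℂ) (g : Matrix n n ℂ) : Prop :=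
  ∃ z : ℂ, z ≠ 0 ∧ (m = 0 → z = 1) ∧ gᵀ * toC Q * g = z ^ 2 • toC Q ∧ g.det = e * z ^ Fintype.card n

private lemma good_mul30 {e e' : ℂ} {g g' : Matrix n n ℂ} (h : Good30 m Q e g) (h' : Good30 m Q e' g') :
    Good30 m Q (e * e') (g * g') := by
  obtain ⟨z, h0, h1, h2, h3⟩ := h
  obtain ⟨w, k0, k1, k2, k3⟩ := h'
  refine ⟨z * w, mul_ne_zero h0 k0, fun hm => by rw [h1 hm, k1 hm, one_mul], ?_, ?_⟩
  · rw [Matrix.transpose_mul]
    calc g'ᵀ * gᵀ * toC Q * (g * g') = g'ᵀ * (gᵀ * toC Q * g) * g' := by simp only [mul_assoc]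
      _ = (z * w) ^ 2 • toC Q := by
        rw [h2, mul_smul_comm, smul_mul_assoc, k2, smul_smul, mul_pow]
  · rw [Matrix.det_mul, h3, k3, mul_pow]
    ring

private lemma good_inv30 {e : ℂ} (he : e * e = 1) {g : GL n ℂ} (h : Good30 m Q e (g : Matrix n n ℂ)) :
    Good30 m Q e ((g⁻¹ : GL n ℂ) : Matrix n n ℂ) := by
  obtain ⟨z, h0, h1, h2, h3⟩ := h
  have hg1 : (g : Matrix n n ℂ) * ((g⁻¹ : GL n ℂ) : Matrix n n ℂ) = 1 := by
    rw [← Units.val_mul, mul_inv_cancel, Units.val_one]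
  have hg2 : ((g⁻¹ : GL n ℂ) : Matrix n n ℂ)ᵀ * (g : Matrix n n ℂ)ᵀ = 1 := by
    rw [← Matrix.transpose_mul, hg1, Matrix.transpose_one]
  have he0 : e ≠ 0 := left_ne_zero_of_mul_eq_one he
  refine ⟨z⁻¹, inv_ne_zero h0, fun hm => by rw [h1 hm, inv_one], ?_, ?_⟩
  · have h4 : ((g⁻¹ : GL n ℂ) : Matrix n n ℂ)ᵀ * ((g : Matrix n n ℂ)ᵀ * toC Q * (g : Matrix n n ℂ)) *
        ((g⁻¹ : GL n ℂ) : Matrix n n ℂ) = toC Q := by
      calc _ = (((g⁻¹ : GL n ℂ) : Matrix n n ℂ)ᵀ * (g : Matrix n n ℂ)ᵀ) * toC Q *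
            ((g : Matrix n n ℂ) * ((g⁻¹ : GL n ℂ) : Matrix n n ℂ)) := by simp only [mul_assoc]
        _ = toC Q := by rw [hg1, hg2, one_mul, mul_one]
    rw [h2, mul_smul_comm, smul_mul_assoc] at h4
    have h5 := congrArg (fun X => (z⁻¹) ^ 2 • X) h4
    simp only [smul_smul] at h5
    rw [← mul_pow, inv_mul_cancel₀ h0, one_pow, one_smul] at h5
    exact h5
  · have h6 : (g : Matrix n n ℂ).det * ((g⁻¹ : GL n ℂ) : Matrix n n ℂ).det = 1 := by
      rw [← Matrix.det_mul, hg1, Matrix.det_one]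
    rw [h3] at h6
    have hz : z ^ Fintype.card n ≠ 0 := pow_ne_zero _ h0
    have h7 : e * z ^ Fintype.card n ≠ 0 := mul_ne_zero he0 hz
    apply mul_left_cancel₀ h7
    rw [h6, inv_pow]
    calc (1 : ℂ) = (e * e) * (z ^ Fintype.card n * (z ^ Fintype.card n)⁻¹) := by
          rw [he, mul_inv_cancel₀ hz, one_mul]
      _ = _ := by ring

private lemma good_or30 [Nonempty n] (H : IsHS m Q S P) (G : IsGal m Q S P Γ R) {g : GL n ℂ} (hg : g ∈ Γ) :
    Good30 m Q 1 (g : Matrix n n ℂ) ∨ Good30 m Q (-1) (g : Matrix n n ℂ) := by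
  obtain ⟨z, h1, h2⟩ := G.sim g hg
  have h3 := congrArg Matrix.det h2
  rw [Matrix.det_mul, Matrix.det_mul, Matrix.det_transpose, Matrix.det_smul] at h3
  have hQ := detQ30 H
  have h4 : (g : Matrix n n ℂ).det ^ 2 = (z ^ Fintype.card n) ^ 2 := by
    apply mul_right_cancel₀ hQ
    rw [← pow_mul, mul_comm (Fintype.card n) 2, pow_mul, ← h3]
    ring
  have hz : z ≠ 0 := by
    rintro rfl
    rw [zero_pow Fintype.card_ne_zero, zero_pow two_ne_zero] at h4
    exact detg30 g (pow_eq_zero_iff two_ne_zero |>.mp h4)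
  rcases sq_eq_sq_iff_eq_or_eq_neg.mp h4 with h5 | h5
  · exact Or.inl ⟨z, hz, h1, h2, by rw [h5, one_mul]⟩
  · exact Or.inr ⟨z, hz, h1, h2, by rw [h5, neg_one_mul]⟩

/-- Block EL-7. -/
theorem exists_idx [Nonempty n] (H : IsHS m Q S P) (G : IsGal m Q S P Γ R) :
    ∃ Γ' : Subgroup (GL n ℂ), Γ' ≤ Γ ∧ Γ'.relIndex Γ ≠ 0 ∧
      ∀ g ∈ Γ', ∃ z : ℂ, (m = 0 → z = 1) ∧ (g : Matrix n n ℂ)ᵀ * toC Q * (g : Matrix n n ℂ) = z ^ 2 • toC Q ∧
        (g : Matrix n n ℂ).det = z ^ Fintype.card n := by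
  let Γ' : Subgroup (GL n ℂ) :=
    { carrier := {g | g ∈ Γ ∧ Good30 m Q 1 (g : Matrix n n ℂ)}
      one_mem' := by
        refine ⟨Γ.one_mem, 1, one_ne_zero, fun _ => rfl, ?_, ?_⟩
        · rw [Units.val_one, Matrix.transpose_one, one_mul, mul_one, one_pow, one_smul]
        · rw [Units.val_one, Matrix.det_one, one_pow, one_mul]
      mul_mem' := by
        rintro g g' ⟨h1, h2⟩ ⟨h1', h2'⟩
        refine ⟨Γ.mul_mem h1 h1', ?_⟩
        have := good_mul30 h2 h2'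
        rwa [one_mul, ← Units.val_mul] at this
      inv_mem' := by
        rintro g ⟨h1, h2⟩
        exact ⟨Γ.inv_mem h1, good_inv30 (one_mul 1) h2⟩ }
  have hmem : ∀ g, g ∈ Γ' ↔ g ∈ Γ ∧ Good30 m Q 1 (g : Matrix n n ℂ) := fun g => Iff.rfl
  refine ⟨Γ', fun g hg => hg.1, ?_, ?_⟩
  · by_cases hall : Γ ≤ Γ'
    · rw [Subgroup.relIndex_eq_one.mpr hall]
      exact one_ne_zero
    · obtain ⟨h, hh, hh'⟩ := SetLike.not_le_iff_exists.mp hall
      have h2 : Γ'.relIndex Γ = 2 := by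
        rw [Subgroup.relIndex_eq_two_iff_exists_notMem_and]
        refine ⟨h, hh, hh', fun b hb => ?_⟩
        by_cases hb' : b ∈ Γ'
        · exact Or.inr hb'
        · left
          have g1 : Good30 m Q (-1) (b : Matrix n n ℂ) := by
            rcases good_or30 H G hb with h3 | h3
            · exact absurd ⟨hb, h3⟩ hb'
            · exact h3
          have g2 : Good30 m Q (-1) (h : Matrix n n ℂ) := by
            rcases good_or30 H G hh with h3 | h3
            · exact absurd ⟨hh, h3⟩ hh'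
            · exact h3
          have g3 := good_mul30 g1 g2
          rw [neg_mul_neg, one_mul, ← Units.val_mul] at g3
          exact ⟨Γ.mul_mem hb hh, g3⟩
      rw [h2]
      exact two_ne_zero
  · rintro g ⟨_, z, _, h1, h2, h3⟩
    exact ⟨z, h1, h2, by rw [h3, one_mul]⟩

end MH
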